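import Pool.Agent.H96.UL.Nrm
import Pool.Agent.H95.UL.Fams
import Pool.Agent.H11.RG.Law

/-!
# [H96 UL LAW] From distribution on intervals to the laws, uniformly (from `H11/RG/Law.lean`)

The data `hf x`, `Wf x`, `bf x` are functions of `x`; the uniform laws follow by `diag`.
-/

namespace Pool.Agent.H96.UL

open Finset Filter Pool.Agent.H21.MT Pool.Agent.H92.MM Pool.Agent.H95.FL Pool.Agent.H11.RG

/-- uniformity in a parameter `t` from the statement for all functions `t = f x` -/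
theorem diag {τ : Type} [Nonempty τ] (D P : ℝ → τ → Prop)
    (H : ∀ f : ℝ → τ, ∀ᶠ x : ℝ in atTop, D x (f x) → P x (f x)) :
    ∀ᶠ x : ℝ in atTop, ∀ t, D x t → P x t := by
  classical
  by_contra hcon
  rw [Filter.not_eventually] at hcon
  obtain ⟨t0⟩ := ‹Nonempty τ›
  have h1 := H (fun x => if h : ∃ t, D x t ∧ ¬ P x t then h.choose else t0)
  obtain ⟨x, hx, hx1⟩ := (hcon.and_eventually h1).exists
  push Not at hx
  have hex : ∃ t, D x t ∧ ¬ P x t := hx
  rw [dif_pos hex] at hx1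
  exact hex.choose_spec.2 (hx1 hex.choose_spec.1)

open Classical in
theorem app_fun (η Θ C0 a0 : ℝ) (hη : 0 < η) (hη1 : η ≤ 1 / 2000) (hΘ : 0 < Θ) (hC0 : 1 ≤ C0)
    (ha0 : 0 < a0) (ha1 : a0 ≤ 1 / 20) :
    ∃ c0 : ℝ, 0 < c0 ∧ ∀ (ι : Type) [Fintype ι] [DecidableEq ι] [Nonempty ι] (a : ℝ) (L : ℕ),
      0 < a → a * 2 ^ L = a0 → (Fintype.card ι : ℝ) * a ≤ c0 →
      ∃ w0 : ℕ, ∀ w : ℕ, w0 ≤ w → ∀ (B : ℝ) (hf : ℝ → ι → ℕ) (Wf bf : ℝ → ℕ)
      (Φ Φ' : ℝ → ℕ → ℝ) (E E' : ℝ → ℝ), IntD η a0 Φ E → IntD η a0 Φ' E' →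
      (∀ᶠ x : ℝ in atTop, ∀ N ∈ Tx x, |Φ x N| ≤ Φ' x N) →
      (∀ᶠ x : ℝ in atTop, |E x| ≤ E' x ∧ E' x ≤ C0) →
      (∃ m : ℕ, ∀ᶠ x : ℝ in atTop, ∀ N ∈ Tx x, Φ' x N ≤ x ^ m) →
      ∀ᶠ x : ℝ in atTop, Okk B w x (hf x) (Wf x) (bf x) →
        App x a L (hf x) (Wf x) (bf x) (η / 1000) (Real.exp (-(Θ / a))) (Φ x) (E x) := by
  obtain ⟨Λ, hΛ⟩ : ∃ Λ : ℝ, Λ = Θ + a0 * Real.log (100 * C0) := ⟨_, rfl⟩
  have hlog : 0 < Real.log (100 * C0) := Real.log_pos (by linarith)
  have hΛ0 : 0 < Λ := by rw [hΛ]; positivity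
  obtain ⟨c0, hc0, hc01, hfund⟩ := fundamental (η / 2000) Λ (by positivity) hΛ0
  refine ⟨c0, hc0, ?_⟩
  intro ι _ _ _ a L ha haL hKa
  have hK1 : 1 ≤ Fintype.card ι := Fintype.card_pos
  have hK0 : (0 : ℝ) < (Fintype.card ι : ℝ) := by exact_mod_cast hK1
  have hL1 : (1 : ℝ) ≤ 2 ^ L := one_le_pow₀ (by norm_num)
  have haa0 : a ≤ a0 := by nlinarith
  have hac0 : a ≤ c0 / Fintype.card ι := by
    rw [le_div_iff₀ hK0]
    linarith
  obtain ⟨w0, hw0, hfund⟩ := hfund (Fintype.card ι) hK1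
  obtain ⟨x0, hx0, hfund⟩ := hfund a ha hac0
  refine ⟨max w0 (2 * Fintype.card ι), ?_⟩
  intro w hw B hf Wf bf Φ Φ' E E' hD hD' hΦ hE hm
  obtain ⟨m, hm⟩ := hm
  have hww0 : w0 ≤ w := (le_max_left _ _).trans hw
  have hΦm : ∀ᶠ x : ℝ in atTop, ∀ N ∈ Tx x, |Φ x N| ≤ x ^ m := by
    filter_upwards [hΦ, hm] with x h1 h2 N hN
    exact (h1 N hN).trans (h2 N hN)
  have hΦm' : ∀ᶠ x : ℝ in atTop, ∀ N ∈ Tx x, |Φ' x N| ≤ x ^ m := by
    filter_upwards [hΦ, hm] with x h1 h2 N hN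
    rw [abs_of_nonneg ((abs_nonneg _).trans (h1 N hN))]
    exact h2 N hN
  have hEC : ∀ᶠ x : ℝ in atTop, |E x| ≤ C0 := by
    filter_upwards [hE] with x h1
    exact h1.1.trans h1.2
  have hEC' : ∀ᶠ x : ℝ in atTop, |E' x| ≤ C0 := by
    filter_upwards [hE] with x h1
    rw [abs_of_nonneg ((abs_nonneg _).trans h1.1)]
    exact h1.2
  obtain ⟨c1, C1, hc1, hC1, hd1⟩ := intd_gw η a0 hη (by linarith) Φ E hD m C0
    hΦm hEC
  obtain ⟨c2, C2, hc2, hC2, hd2⟩ := intd_gw η a0 hη (by linarith) Φ' E' hD' m C0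
    hΦm' hEC'
  obtain ⟨c, hcd⟩ : ∃ c, c = min c1 c2 := ⟨_, rfl⟩
  obtain ⟨C, hCd⟩ : ∃ C, C = max C1 C2 := ⟨_, rfl⟩
  have hc : 0 < c := hcd ▸ lt_min hc1 hc2
  have hC : 0 < C := hCd ▸ lt_max_of_lt_left hC1
  obtain ⟨ε, hεd⟩ : ∃ ε : ℝ, ε = min (c / 8) (η / 5000) := ⟨_, rfl⟩
  have hε : 0 < ε := hεd ▸ lt_min (by positivity) (by positivity)
  have hε1 : ε ≤ c / 8 := hεd ▸ min_le_left _ _
  have hε2 : ε ≤ η / 5000 := hεd ▸ min_le_right _ _
  have hfam := Pool.Agent.H95.UL.fam11U (ι := ι) a L ha B (η / 1000) (Real.exp (-(Θ / a)) / (8 * C0)) (by positivity)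
  have hw2K : 2 * Fintype.card ι ≤ w := (le_max_right _ _).trans hw
  have hvb := vb (Fintype.card ι) w hw2K a ε ha (by linarith) hε
  have evW := log_lt B (η / 500) (by positivity)
  have evw := log_lt B a ha
  have ev1 : ∀ᶠ x : ℝ in atTop, 192 * C / Real.exp (-(Θ / a)) ≤ x ^ (c / 2) :=
    (tendsto_rpow_atTop (by positivity)).eventually_ge_atTop _
  have ev2 : ∀ᶠ x : ℝ in atTop, 192 * C / Real.exp (-(Θ / a)) ≤ x ^ (η / 500) :=
    (tendsto_rpow_atTop (by positivity)).eventually_ge_atTop _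
  filter_upwards [hd1, hd2, hΦ, hE, hfam, hvb, evW, evw, ev1, ev2, mass_big,
    eventually_ge_atTop x0] with x hd1 hd2 hΦ hE hfam hvb evW0 evw ev1 ev2 hmass hxx0
  intro hok
  generalize hf x = h at hok ⊢
  generalize Wf x = W at hok ⊢
  generalize bf x = b at hok ⊢
  intro A hA
  have hW : 0 < W := hok.W_pos
  have hWR : (0 : ℝ) < W := by exact_mod_cast hW
  have evW : (W : ℝ) ≤ x ^ (η / 500) := hok.wle.trans evW0.le
  have hvb := hvb W hok.pw
  have hx3 : 3 ≤ x := hx0.trans hxx0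
  have hx1 : 1 ≤ x := by linarith
  have hxp : 0 < x := by linarith
  have hxaa0 : x ^ a ≤ x ^ a0 := Real.rpow_le_rpow_of_exponent_le hx1 haa0
  obtain ⟨P, hPd⟩ : ∃ P, P = PP x a W := ⟨_, rfl⟩
  have hPp : ∀ p ∈ P, p.Prime ∧ ¬ p ∣ W ∧ (p : ℝ) < x ^ a ∧ w < p := by
    intro p hp
    rw [hPd] at hp
    obtain ⟨h2, h3, h4⟩ := mem_PP.1 hp
    exact ⟨h3, h4, h2, prim_gt hok.pw h3 h4⟩
  obtain ⟨fl, fu, hsand⟩ := hfund x hxx0 P (fun p hp =>
    ⟨(hPp p hp).1, by have := (hPp p hp).2.2.2; omega, (hPp p hp).2.2.1.le⟩)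
  have hs := hsand (fun p => (Fintype.card ι : ℝ) / p) (fun p hp => by
    have h2 : (0 : ℝ) < p := by exact_mod_cast (hPp p hp).1.pos
    constructor
    · positivity
    · apply div_le_div_of_nonneg_right _ h2.le
      linarith)
  obtain ⟨κ, Fam, q, r, f1, f2, f3, f4⟩ := hfam h hok.inj hok.hh A hA
  -- distribution
  have hm1 : C1 * x ^ (1 - c1) ≤ C * x ^ (1 - c) := by
    apply mul_le_mul (hCd ▸ le_max_left _ _) _ (Real.rpow_nonneg hxp.le _) hC.le
    apply Real.rpow_le_rpow_of_exponent_le hx1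
    have := min_le_left c1 c2
    linarith
  have hm2 : C2 * x ^ (1 - c2) ≤ C * x ^ (1 - c) := by
    apply mul_le_mul (hCd ▸ le_max_right _ _) _ (Real.rpow_nonneg hxp.le _) hC.le
    apply Real.rpow_le_rpow_of_exponent_le hx1
    have := min_le_right c1 c2
    linarith
  have hm3 : C1 * x ^ (1 - η / 128) ≤ C * x ^ (1 - η / 128) :=
    mul_le_mul_of_nonneg_right (hCd ▸ le_max_left _ _) (Real.rpow_nonneg hxp.le _)
  have hm4 : C2 * x ^ (1 - η / 128) ≤ C * x ^ (1 - η / 128) :=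
    mul_le_mul_of_nonneg_right (hCd ▸ le_max_right _ _) (Real.rpow_nonneg hxp.le _)
  have D1 := dist_mono hd1 hm1 hm3
  have D2 := dist_mono hd2 hm2 hm4
  have hmass0 : 0 < mass x := lt_of_lt_of_le (by positivity) hmass
  have hE0 : 0 ≤ E' x := (abs_nonneg _).trans hE.1
  have hpt : ∀ N ∈ Tx x, |gw x N * Φ x N| ≤ gw x N * Φ' x N := by
    intro N hN
    rw [abs_mul, abs_of_pos (gw_pos x N)]
    exact mul_le_mul_of_nonneg_left (hΦ N hN) (gw_pos x N).le
  have hXX : |mass x * E x| ≤ mass x * E' x := by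
    rw [abs_mul, abs_of_pos hmass0]
    exact mul_le_mul_of_nonneg_left hE.1 hmass0.le
  have hzW : ∀ p : ℕ, p.Prime → p ∣ W → (p : ℝ) < x ^ a0 := by
    intro p hp hpW
    have h3 := hok.p_le hpW
    linarith
  have hdif : ∀ p ∈ P, ∀ i j, i ≠ j → ¬ (p : ℤ) ∣ (h i : ℤ) - h j :=
    fun p hp => hok.ndvd (hPp p hp).1 (hPp p hp).2.1
  have key := poly_gen D1 D2 hpt hXX (by positivity) (by positivity) h W b P hW
    (fun p hp => ⟨(hPp p hp).1, (hPp p hp).2.1⟩) hdif hzW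
    (fun p hp => lt_of_lt_of_le (hPp p hp).2.2.1 hxaa0) (x ^ (η / 2000))
    (Real.exp (-(Λ / a))) fl fu hs Fam q r (fun k hk => (f2 k hk).1)
    (fun k hk => by
      apply Nat.Coprime.symm
      rw [Nat.coprime_iff_gcd_eq_one]
      by_contra h2
      obtain ⟨p, hp, hpd⟩ := Nat.exists_prime_and_dvd h2
      have h3 := ((f2 k hk).2.2 p hp (hpd.trans (Nat.gcd_dvd_left _ _))).1
      have h4 : p ∣ W := hpd.trans (Nat.gcd_dvd_right _ _)
      have h6 := hok.p_le h4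
      linarith)
    (fun k hk p hp hpd => by
      have h3 := ((f2 k hk).2.2 p (hPp p hp).1 hpd).1
      have h4 := (hPp p hp).2.2.1
      linarith)
    (fun k hk p hp hpd => by
      have h3 := ((f2 k hk).2.2 p hp hpd).2
      rwa [haL] at h3)
    (fun k hk => by
      have h3 := (f2 k hk).2.1
      calc (W : ℝ) * q k * x ^ (η / 2000)
          ≤ x ^ (η / 500) * x ^ (η / 1000) * x ^ (η / 2000) := by
            gcongr
        _ = x ^ (η / 500 + η / 1000 + η / 2000) := by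
            rw [Real.rpow_add hxp, Real.rpow_add hxp]
        _ ≤ x ^ (η / 64) := Real.rpow_le_rpow_of_exponent_le hx1 (by linarith))
  obtain ⟨V, hVd⟩ : ∃ V, V = vv (fun p => (Fintype.card ι : ℝ) / p) P := ⟨_, rfl⟩
  obtain ⟨U, hUd⟩ : ∃ U, U = ∏ p ∈ P, (1 + (Fintype.card ι : ℝ) / p) := ⟨_, rfl⟩
  obtain ⟨Sg, hSgd⟩ : ∃ Sg, Sg = ∑ k ∈ Fam, (1 : ℝ) / q k := ⟨_, rfl⟩
  rw [← hPd, ← hVd, ← hUd] at hvb
  rw [← hVd, ← hUd, ← hSgd] at key
  rw [← hSgd] at f4
  have hV0 : 0 < V := lt_of_lt_of_le (Real.rpow_pos_of_pos hxp _) hvb.1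
  obtain ⟨S, hSd⟩ : ∃ S, S = ∑ N ∈ (Tx x).filter (fun N => Adm x a h W b N),
    gw x N * (sm x a L h A N * Φ x N) := ⟨_, rfl⟩
  have hS2 : S = ∑ N ∈ (Tx x).filter (fun N => N % W = b % W ∧ DP h P N = ∅),
      gw x N * Φ x N * (∑ k ∈ Fam, if N % q k = r k % q k then (1 : ℝ) else 0) := by
    rw [hSd]
    have h2 : (Tx x).filter (fun N => Adm x a h W b N) =
        (Tx x).filter (fun N => N % W = b % W ∧ DP h P N = ∅) := by
      apply filter_congr
      intro N _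
      rw [hPd]
      exact adm_iff x a h W b N hok.cop
    rw [h2]
    apply sum_congr rfl
    intro N hN
    rw [mem_filter] at hN
    have h3 : 0 < N := by
      have h4 := hN.1
      unfold Tx at h4
      rw [mem_Ioc] at h4
      omega
    rw [← f1 N h3]
    ring
  rw [← hS2] at key
  have hAv : Av x a h W b (fun N => sm x a L h A N * Φ x N) = S / (mass x / W * V) := by
    unfold Av nm
    rw [hSd, hVd, hPd]
    rfl
  rw [hAv]
  have hn0 : 0 < mass x / W * V := by positivity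
  have hSg0 : 0 ≤ Sg := by
    rw [hSgd]
    positivity
  have he0 : 0 < Real.exp (-(Θ / a)) := Real.exp_pos _
  have he1 : Real.exp (-(Θ / a)) ≤ 1 := by
    rw [Real.exp_le_one_iff]
    have : 0 < Θ / a := by positivity
    linarith
  have hSg2 : Sg ≤ 2 := by
    have h2 := (abs_le.1 f4).2
    have h3 : Real.exp (-(Θ / a)) / (8 * C0) ≤ 1 := by
      rw [div_le_one (by positivity)]
      nlinarith
    have h4 := sv_le_one L A
    linarith
  have hdd : Real.exp (-(Λ / a)) ≤ Real.exp (-(Θ / a)) / (100 * C0) := by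
    have h2 : Real.log (100 * C0) ≤ (a0 * Real.log (100 * C0)) / a := by
      rw [le_div_iff₀ ha]
      nlinarith
    have h3 : -(Λ / a) ≤ -(Θ / a) - Real.log (100 * C0) := by
      rw [hΛ, add_div]
      linarith
    calc Real.exp (-(Λ / a)) ≤ Real.exp (-(Θ / a) - Real.log (100 * C0)) := Real.exp_le_exp.2 h3
      _ = Real.exp (-(Θ / a)) / (100 * C0) := by
        rw [Real.exp_sub, Real.exp_log (by positivity)]
  have hU0 : 0 ≤ U := by
    rw [hUd]
    positivity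
  have hmV : x / 8 * x ^ (-ε) ≤ mass x * V :=
    mul_le_mul hmass hvb.1 (Real.rpow_nonneg hxp.le _) hmass0.le
  have hmV0 : 0 < x / 8 * x ^ (-ε) := by positivity
  have hDl1 : C * x ^ (1 - c) / W * U * Sg / (mass x / W * V) ≤ Real.exp (-(Θ / a)) / 12 := by
    have h2 : C * x ^ (1 - c) / W * U * Sg / (mass x / W * V) =
        C * x ^ (1 - c) * U * Sg / (mass x * V) := by
      field_simp
    rw [h2]
    calc C * x ^ (1 - c) * U * Sg / (mass x * V)
        ≤ C * x ^ (1 - c) * x ^ ε * 2 / (x / 8 * x ^ (-ε)) := by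
          have := hvb.2
          gcongr
      _ = 16 * C * x ^ (-c + 2 * ε) := by
          have e1 : x ^ (-c + 2 * ε) = x ^ (1 - c) * x ^ ε / (x * x ^ (-ε)) := by
            have e2 : x * x ^ (-ε) = x ^ (1 - ε) := by
              rw [← Real.rpow_one_add' hxp.le (by linarith)]
              congr 1
            rw [e2, ← Real.rpow_add hxp, ← Real.rpow_sub hxp]
            congr 1
            ring
          rw [e1]
          field_simp
          ring
      _ ≤ 16 * C * x ^ (-(c / 2)) := by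
          apply mul_le_mul_of_nonneg_left _ (by positivity)
          apply Real.rpow_le_rpow_of_exponent_le hx1
          linarith
      _ ≤ Real.exp (-(Θ / a)) / 12 := by
          rw [Real.rpow_neg hxp.le, ← div_eq_mul_inv, div_le_iff₀ (by positivity)]
          rw [div_le_iff₀ he0] at ev1
          linarith
  have hDl2 : C * x ^ (1 - η / 128) * x ^ (η / 2000) * Fam.card /
      (mass x / W * V) ≤ Real.exp (-(Θ / a)) / 24 := by
    have h2 : C * x ^ (1 - η / 128) * x ^ (η / 2000) * Fam.card /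
        (mass x / W * V) =
        C * x ^ (1 - η / 128) * x ^ (η / 2000) * Fam.card * W / (mass x * V) := by
      field_simp
    rw [h2]
    calc C * x ^ (1 - η / 128) * x ^ (η / 2000) * Fam.card * W / (mass x * V)
        ≤ C * x ^ (1 - η / 128) * x ^ (η / 2000) * x ^ (η / 1000) *
          x ^ (η / 500) / (x / 8 * x ^ (-ε)) := by
          gcongr
      _ = 8 * C * x ^ (-(η / 128) + η / 2000 + η / 1000 + η / 500 + ε) := by
          have e1 : x ^ (-(η / 128) + η / 2000 + η / 1000 + η / 500 + ε) =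
              x ^ (1 - η / 128) * x ^ (η / 2000) * x ^ (η / 1000) *
              x ^ (η / 500) / (x * x ^ (-ε)) := by
            have e2 : x * x ^ (-ε) = x ^ (1 - ε) := by
              rw [← Real.rpow_one_add' hxp.le (by linarith)]
              congr 1
            rw [e2, ← Real.rpow_add hxp, ← Real.rpow_add hxp, ← Real.rpow_add hxp,
              ← Real.rpow_sub hxp]
            congr 1
            ring
          rw [e1]
          field_simp
      _ ≤ 8 * C * x ^ (-(η / 500)) := by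
          apply mul_le_mul_of_nonneg_left _ (by positivity)
          apply Real.rpow_le_rpow_of_exponent_le hx1
          linarith
      _ ≤ Real.exp (-(Θ / a)) / 24 := by
          rw [Real.rpow_neg hxp.le, ← div_eq_mul_inv, div_le_iff₀ (by positivity)]
          rw [div_le_iff₀ he0] at ev2
          linarith
  refine final_num Θ a C0 (Real.exp (-(Λ / a))) Sg (sv L A) (E x) (E' x)
    (3 * (C * x ^ (1 - c) / W * U * Sg / (mass x / W * V) +
      C * x ^ (1 - η / 128) * x ^ (η / 2000) * Fam.card / (mass x / W * V)))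
    hC0 (sv_le_one L A) (Real.exp_pos _).le hdd hE.1 hE.2 f4 he1 _ (by linarith) ?_
  have e3 : S / (mass x / W * V) - E x * Sg =
      (S - mass x * E x / W * V * Sg) / (mass x / W * V) := by
    field_simp
  rw [e3, abs_div, abs_of_pos hn0, div_le_iff₀ hn0]
  refine key.trans (le_of_eq ?_)
  field_simp

end Pool.Agent.H96.UL
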