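import Pool.Agent.H96.UL.Def
import Pool.Agent.H61.UL.Def

/-!
# [H96 UL BLK] From `MedU` to the interface `BlkU` of part B
-/

namespace Pool.Agent.H96.UL

open Finset Filter Pool.Agent.H21.MT Pool.Agent.H92.MM Pool.Agent.H61.UL

theorem blkU_of_medU (H : ∀ k : ℕ, 1 ≤ k → MedU (13 / 50) k) : BlkU := by
  classical
  intro e he m hm
  obtain ⟨s, a, C2, hs, ha, ha1, hC2, H⟩ := H m hm e he
  refine ⟨s, a, C2, hs, ha, ha1, hC2, fun A _ => ?_⟩
  obtain ⟨w0, H⟩ := H A
  refine ⟨w0, fun w hw => ?_⟩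
  filter_upwards [H w hw] with x hx V W b hdis hcard hok
  have hmem : ∀ j, ∀ y ∈ V j, y ∈ univ.biUnion V := fun j y hy =>
    mem_biUnion.2 ⟨j, mem_univ _, hy⟩
  have hV : OkV A w s x V W b := by
    refine ⟨hdis, hcard, fun j y hy => hok.hle y (hmem j y hy), hok.sq, hok.wW, hok.Wle, ?_,
      fun j y hy => hok.cop y (hmem j y hy)⟩
    intro j j' y hy z hz hyz p hp hd
    rcases Nat.lt_or_gt_of_ne hyz with h | h
    · refine hok.dif y (hmem j y hy) z (hmem j' z hz) h p hp ?_
      have h1 : (p : ℤ) ∣ ((z - y : ℕ) : ℤ) := by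
        rw [Nat.cast_sub h.le, ← dvd_neg, neg_sub]
        exact hd
      exact_mod_cast h1
    · refine hok.dif z (hmem j' z hz) y (hmem j y hy) h p hp ?_
      have h1 : (p : ℤ) ∣ ((y - z : ℕ) : ℤ) := by
        rw [Nat.cast_sub h.le]
        exact hd
      exact_mod_cast h1
  obtain ⟨hnm, μ, h0, h1, h2, h3, h4⟩ := hx V W b hV
  refine ⟨fun N => if N ∈ Tx x then μ N else 0, fun N => ?_, fun N hN => ?_, fun N => ?_, ?_, ?_⟩
  · dsimp only
    split_ifs
    · exact h0 N
    · exact le_rfl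
  · dsimp only at hN
    have hT : N ∈ Tx x := by
      by_contra hno
      exact hN (if_neg hno)
    rw [if_pos hT] at hN
    obtain ⟨h5, h6⟩ := h2 N hT hN
    refine ⟨hT, h5, fun y hy p hp hpy => ?_⟩
    obtain ⟨j, _, hj⟩ := mem_biUnion.1 hy
    exact h6 j y hj p hp hpy
  · by_cases hT : N ∈ Tx x
    · simp only [hT, if_true]
      exact h1 N hT
    · simp only [hT, if_false]
      have := gw_pos x N
      positivity
  · rw [← h3]
    exact sum_congr rfl fun N hN => if_pos hN
  · intro j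
    refine (h4 j (Classical.decPred _)).trans (le_of_eq ?_)
    refine sum_congr ?_ ?_
    · ext N
      simp only [mem_filter]
    · intro N hN
      exact (if_pos (mem_filter.1 hN).1).symm

end Pool.Agent.H96.UL
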