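import Pool.Agent.H96.UL.Pp
import Pool.Agent.H95.UL.Pri

/-!
# [H96 UL PRI] The law (L2), uniform: from `H14/L2` (files Fm, Sv, Vv, Wt, Pw, Pri)

The proof is in `H95/UL/` (files Pt, Wt, Pw, Fm, Sv, Vv, Pri): edited copies of the files of `H14/L2` and `H21/SH` with a general
squarefree modulus `W` (`primorial w ∣ W`, `W ≤ (log x)^A`), uniformly in the shifts `h j ≤ (log x)^A`.
-/

namespace Pool.Agent.H96.UL

open Finset Filter Topology Pool.Agent.H92.MM

theorem prime_lawU (η Θ : ℝ) (hη : 0 < η) (hη1 : η ≤ 1 / 8) (hΘ : 0 < Θ) : PrimeLawU η Θ :=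
  Pool.Agent.H95.UL.prime_lawU η Θ hη hη1 hΘ

end Pool.Agent.H96.UL
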