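import Pool.Agent.H96.UL.One
import Pool.Agent.H96.UL.Pri
import Pool.Agent.H96.UL.Fin
import Pool.Agent.H92.UM.Lo
import Pool.Agent.H95.M3.Mer3
import Pool.Agent.H63.CF.Prd
import Pool.Agent.H89.P2.Up

/-!
# [H96 UL MAIN] The uniform measure theorem with constant `13/50`

From `H92/UM` (`med_of_laws`: the uniform form of `loc_of_laws`, H92/MM, and of the second part of `MED_of_LocD`,
H21/CP/LocD).  Only the upper weight `G` is used.
-/

set_option autoImplicit false

namespace Pool.Agent.H96.UL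

open Finset Filter Topology Pool.Agent.H92.MM Pool.Agent.H92.UM Pool.Agent.H89.P2 Pool.Agent.H11.PT
  Pool.Agent.H11.RG

/-- the upper linear sieve of level `.549` satisfies the hypotheses of `med_of_laws` with constant `13/50` -/
theorem wts_GU (ε a0 : ℝ) (hε : 0 < ε) (ha0 : 0 < a0) (ha1 : a0 ≤ 1 / 20) :
    ∃ (G : ℝ → ℕ → ℝ) (EG : ℝ → ℝ),
      WtU (1 / 2000 / 1000) 10 a0 (1 / 100 * a0) (2 * Real.exp (3 / a0)) G EG ∧
        Maj (13 / 50) ε a0 G EG := by
  obtain ⟨J, W, hJ, _, h1, h2, h3, h4, ⟨x0, hx0⟩, h5, h6⟩ :=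
    upper_final a0 (1 / 10000) ha0 ha1 (by norm_num)
  have hJR : (0 : ℝ) < J := by exact_mod_cast hJ
  have hδ : 0 < a0 / J := by positivity
  have hok : Okw (a0 / J) a0 W := ⟨fun w hw j hj => (h1 w hw j hj).2.1, h2⟩
  have hpl := pair_lawU_p2 (1 / 2000) 10 a0 (a0 / J) le_rfl (by norm_num) ha0 ha1 hδ W hok
  have hexp : Real.exp (2 / a0) ≤ Real.exp (3 / a0) := by
    apply Real.exp_le_exp.2
    gcongr
    norm_num
  refine ⟨fun x n => ev2 W (kk x (a0 / J) n), fun _ => mv2 W Pool.Agent.H89.P2.mu,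
    ⟨hpl, ?_, ?_, ?_⟩, ⟨h3, ?_, ?_⟩⟩
  · filter_upwards [eventually_ge_atTop x0] with x hx n hn hnx
    have := hx0 x hx n hn hnx
    linarith
  · exact Eventually.of_forall fun x => by linarith
  · refine Eventually.of_forall fun x => ?_
    have h8 : (1 : ℝ) ≤ Real.exp (3 / a0) := Real.one_le_exp (by positivity)
    linarith
  · filter_upwards [eventually_gt_atTop (1 : ℝ)] with x hx n hn hnx _
    exact h4 x hx n hn hnx
  · filter_upwards [Pool.Agent.H95.M3.pr_ge (1 / 10000) a0 (by norm_num) ha0] with x hx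
    have he : (2.7182818283 : ℝ) < Real.exp 1 := Real.exp_one_gt_d9
    have h9 : (1.718 : ℝ) * a0 ≤ (Real.exp 1 - 1 - 1 / 10000) * a0 := by
      apply mul_le_mul_of_nonneg_right _ ha0.le
      linarith
    have h10 : 0 ≤ pr x a0 := by linarith [mul_pos (by norm_num : (0 : ℝ) < 1.718) ha0]
    have h11 : 0 ≤ ε * pr x a0 := mul_nonneg hε.le h10
    linarith

theorem med_uniform (k : ℕ) (hk : 1 ≤ k) : MedU (13 / 50) k :=
  med_of_laws (13 / 50) (by norm_num) (by norm_num) k hk (1 / 100) (by norm_num) (by norm_num)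
    Pool.Agent.H63.CF.mer fun ε hε =>
      ⟨1 / 2000 / 1000, by positivity, by norm_num, one_lawU _ _ (by positivity) (by norm_num)
        (by norm_num), prime_lawU _ _ (by positivity) (by norm_num) (by norm_num),
        fun a0 ha0 ha1 => wts_GU ε a0 hε ha0 ha1⟩

end Pool.Agent.H96.UL
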