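import Pool.Agent.H92.MM.Def

/-!
# [H96 UL DEF] MP_8923e7_nt, Theorem G, part A: the model laws, uniformly in the shifts and in the modulus

`Okk A w x h W b`: admissible data at `x`: the shifts `h j` are distinct and `≤ (log x)^A`, the modulus `W ≤ (log x)^A` is
squarefree, a multiple of `primorial w`, every prime dividing a difference `h i - h j` (`i ≠ j`) divides `W`, and all
`b + h j` are coprime to `W`.

`LawU`: for all `A` there is a threshold `w0` such that for all `w ≥ w0`, for large `x`,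
the law holds for ALL data with `Okk`.  The averages `Av`, `App`, .. are those of `H92/MM/Def.lean` (`nm x a W K` has a general
`W`).
-/

namespace Pool.Agent.H96.UL

open Finset Filter Pool.Agent.H21.MT Pool.Agent.H92.MM

/-- admissible data at `x` -/
structure Okk {ι : Type} (A : ℝ) (w : ℕ) (x : ℝ) (h : ι → ℕ) (W b : ℕ) : Prop where
  inj : Function.Injective h
  hh : ∀ j, (h j : ℝ) ≤ Real.log x ^ A
  sqf : Squarefree W
  pw : primorial w ∣ W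
  wle : (W : ℝ) ≤ Real.log x ^ A
  dif : ∀ j j', j ≠ j' → ∀ p : ℕ, p.Prime → (p : ℤ) ∣ (h j : ℤ) - h j' → p ∣ W
  cop : ∀ j, Nat.Coprime (b + h j) W

/-- the common quantifiers of the uniform laws -/
def LawU (c0 : ℝ) (P : ∀ (ι : Type) [Fintype ι] [DecidableEq ι], ℝ → ℝ → ℕ → (ι → ℕ) → ℕ → ℕ → Prop) :
    Prop :=
  ∀ (ι : Type) [Fintype ι] [DecidableEq ι] [Nonempty ι] (a : ℝ) (L : ℕ), 0 < a →
    a * 2 ^ L ≤ 1 / 20 → (Fintype.card ι : ℝ) * a ≤ c0 → ∀ A : ℝ, ∃ w0 : ℕ, ∀ w : ℕ, w0 ≤ w →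
      ∀ᶠ x : ℝ in atTop, ∀ (h : ι → ℕ) (W b : ℕ), Okk A w x h W b → P ι x a L h W b

/-- (L1), uniform -/
def OneLawU (η Θ : ℝ) : Prop := ∃ c0 : ℝ, 0 < c0 ∧
  LawU c0 (fun _ _ _ x a L h W b => App x a L h W b η (Real.exp (-(Θ / a))) (fun _ => 1) 1)

open Classical in
/-- (L2), uniform -/
def PrimeLawU (η Θ : ℝ) : Prop := ∃ c0 : ℝ, 0 < c0 ∧
  LawU c0 (fun ι _ _ x a L h W b => ∀ j0 : ι, ∀ A : ι → Fin L → ℕ, (∀ i, A j0 i = 0) →
    sl a L A ≤ η → |Av x a h W b (fun N => sm x a L h A N * (if (N + h j0).Prime then 1 else 0)) -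
      sv L A * pr x a| ≤ Real.exp (-(Θ / a)))

/-- (L3), uniform -/
def PairLawU (η Θ a0 : ℝ) (F : ℝ → ℕ → ℝ) (EF : ℝ → ℝ) : Prop := ∃ c0 : ℝ, 0 < c0 ∧
  LawU c0 (fun ι _ _ x a L h W b => a * 2 ^ L = a0 →
    (∀ j : ι, App x a L h W b η (Real.exp (-(Θ / a))) (fun N => F x (N + h j)) (EF x)) ∧
    (∀ j j' : ι, j ≠ j' → App x a L h W b η (Real.exp (-(Θ / a)))
      (fun N => F x (N + h j) * F x (N + h j')) (EF x ^ 2)))

/-- admissible blocks at `x`: `V j` (`j : Fin k`) disjoint sets of `s` shifts `≤ (log x)^A`, with modulus `W`, residue `b` -/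
structure OkV {k : ℕ} (A : ℝ) (w s : ℕ) (x : ℝ) (V : Fin k → Finset ℕ) (W b : ℕ) : Prop where
  dis : ∀ j j', j ≠ j' → Disjoint (V j) (V j')
  card : ∀ j, (V j).card = s
  hh : ∀ j, ∀ y ∈ V j, (y : ℝ) ≤ Real.log x ^ A
  sqf : Squarefree W
  pw : primorial w ∣ W
  wle : (W : ℝ) ≤ Real.log x ^ A
  dif : ∀ j j', ∀ y ∈ V j, ∀ z ∈ V j', y ≠ z → ∀ p : ℕ, p.Prime → (p : ℤ) ∣ (y : ℤ) - z → p ∣ W
  cop : ∀ j, ∀ y ∈ V j, Nat.Coprime (b + y) W

/-- **the uniform measure theorem** (target of part A): block size `s`, presieve exponent `a`, constant `C2` depend only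
on `k` and `η`; for all `A`, `w ≥ w0(A)`, all large `x` and ALL admissible blocks there is a probability measure `μ` on the class
`N ≡ b (W)` in the window `Tx x`, supported on `N` with all `N + y` (`y` in the blocks) free of prime factors `< x^a`, pointwise
`≤ C2 gw/nm`, for which each block contains a prime (some `N + y` prime) with probability `≥ c - η`. -/
def MedU (c : ℝ) (k : ℕ) : Prop := ∀ η : ℝ, 0 < η → ∃ (s : ℕ) (a C2 : ℝ), 1 ≤ s ∧ 0 < a ∧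
  a ≤ 1 / 20 ∧ 0 < C2 ∧ ∀ A : ℝ, ∃ w0 : ℕ, ∀ w : ℕ, w0 ≤ w → ∀ᶠ x : ℝ in atTop,
    ∀ (V : Fin k → Finset ℕ) (W b : ℕ), OkV A w s x V W b →
      0 < nm x a W (k * s) ∧ ∃ μ : ℕ → ℝ,
      (∀ N, 0 ≤ μ N) ∧ (∀ N ∈ Tx x, μ N ≤ C2 * gw x N / nm x a W (k * s)) ∧
      (∀ N ∈ Tx x, μ N ≠ 0 → N % W = b % W ∧ ∀ j, ∀ y ∈ V j, ∀ p : ℕ, p.Prime → p ∣ N + y →
        x ^ a ≤ (p : ℝ)) ∧
      ∑ N ∈ Tx x, μ N = 1 ∧
      ∀ j, ∀ _ : DecidablePred (fun N => ∃ y ∈ V j, (N + y).Prime),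
        c - η ≤ ∑ N ∈ (Tx x).filter (fun N => ∃ y ∈ V j, (N + y).Prime), μ N

end Pool.Agent.H96.UL
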